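import Mathlib

/-! # FT-Fit: the Fitting subgroup and the Fitting series (readable definitions)

`fitting G` is the join of all normal nilpotent subgroups, `fitSer G i` is the Fitting series
`F_0 = 1`, `F_{i+1} =` full preimage of `fitting (G ⧸ F_i)`.
-/

namespace FT

universe u v

/-- The Fitting subgroup: the join of all normal nilpotent subgroups of `G`. -/
def fitting (G : Type u) [Group G] : Subgroup G :=
  sSup {N : Subgroup G | N.Normal ∧ Group.IsNilpotent N}

instance fitting_normal (G : Type u) [Group G] : (fitting G).Normal :=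
  Subgroup.sSup_normal _ (fun _ h => h.1)

/-- The Fitting series as a sequence of normal subgroups. -/
def fitSerN (G : Type u) [Group G] : ℕ → {N : Subgroup G // N.Normal}
  | 0 => ⟨⊥, inferInstance⟩
  | i + 1 =>
    let N := fitSerN G i
    have := N.2
    ⟨(fitting (G ⧸ N.1)).comap (QuotientGroup.mk' N.1), inferInstance⟩

/-- The Fitting series: `F_0(G) = 1` and `F_{i+1}(G)` is the full preimage in `G` of
`F(G/F_i(G))`. -/
def fitSer (G : Type u) [Group G] (i : ℕ) : Subgroup G := (fitSerN G i).1

instance fitSer_normal (G : Type u) [Group G] (i : ℕ) : (fitSer G i).Normal := (fitSerN G i).2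

theorem fitSer_zero (G : Type u) [Group G] : fitSer G 0 = ⊥ := rfl

theorem fitSer_succ (G : Type u) [Group G] (i : ℕ) :
    fitSer G (i + 1) = (fitting (G ⧸ fitSer G i)).comap (QuotientGroup.mk' (fitSer G i)) := rfl

theorem le_fitting {G : Type u} [Group G] (N : Subgroup G) (h1 : N.Normal)
    (h2 : Group.IsNilpotent N) : N ≤ fitting G := le_sSup ⟨h1, h2⟩

/-- an isomorphism maps the Fitting subgroup onto the Fitting subgroup -/
theorem fitting_map {G : Type u} [Group G] {H : Type v} [Group H] (e : G ≃* H) :
    (fitting G).map e.toMonoidHom = fitting H := by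
  have key : ∀ {G : Type u} [Group G] {H : Type v} [Group H] (e : G ≃* H),
      (fitting G).map e.toMonoidHom ≤ fitting H := by
    intro G _ H _ e
    rw [Subgroup.map_le_iff_le_comap]
    refine sSup_le ?_
    rintro N ⟨h1, h2⟩
    rw [← Subgroup.map_le_iff_le_comap]
    refine le_fitting _ (h1.map _ e.surjective) ?_
    exact (Group.isNilpotent_congr (e.subgroupMap N)).1 h2
  have key2 : ∀ {G : Type v} [Group G] {H : Type u} [Group H] (e : G ≃* H),
      (fitting G).map e.toMonoidHom ≤ fitting H := by
    intro G _ H _ e
    rw [Subgroup.map_le_iff_le_comap]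
    refine sSup_le ?_
    rintro N ⟨h1, h2⟩
    rw [← Subgroup.map_le_iff_le_comap]
    refine le_fitting _ (h1.map _ e.surjective) ?_
    exact (Group.isNilpotent_congr (e.subgroupMap N)).1 h2
  refine le_antisymm (key e) ?_
  have h := key2 e.symm
  intro x hx
  refine ⟨e.symm x, h ⟨x, hx, rfl⟩, ?_⟩
  exact e.apply_symm_apply x

theorem mem_fitting_equiv {G : Type u} [Group G] {H : Type v} [Group H] (e : G ≃* H) (x : G) :
    e x ∈ fitting H ↔ x ∈ fitting G := by
  rw [← fitting_map e]
  constructor
  · rintro ⟨y, hy, hyx⟩
    have : y = x := e.injective hyx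
    rwa [← this]
  · intro hx
    exact ⟨x, hx, rfl⟩

instance fitting_char (G : Type u) [Group G] : (fitting G).Characteristic := by
  rw [Subgroup.characteristic_iff_map_eq]
  intro e
  exact fitting_map e

end FT
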