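import Mathlib
import Pool.Agent.helper32.FT.Fit

/-! # FT-FitNil: the Fitting subgroup of a finite group is nilpotent -/

namespace FT

universe u v

/-- join of the normal `p`-subgroups -/
def coreP (p : ℕ) (G : Type u) [Group G] : Subgroup G :=
  sSup {N : Subgroup G | N.Normal ∧ IsPGroup p N}

instance coreP_normal (p : ℕ) (G : Type u) [Group G] : (coreP p G).Normal :=
  Subgroup.sSup_normal _ (fun _ h => h.1)

/-- the join of finitely many normal `p`-subgroups is a `p`-group -/
theorem coreP_isPGroup (p : ℕ) [Fact p.Prime] (G : Type u) [Group G] [Finite G] :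
    IsPGroup p (coreP p G) := by
  have h : ∀ S : Set (Subgroup G), S.Finite → S ⊆ {N : Subgroup G | N.Normal ∧ IsPGroup p N} →
      IsPGroup p (sSup S : Subgroup G) := by
    intro S hS
    induction S, hS using Set.Finite.induction_on with
    | empty =>
      intro _
      rw [sSup_empty]
      exact IsPGroup.of_bot
    | @insert a s _ _ ih =>
      intro h
      rw [sSup_insert]
      have h1 := h (Set.mem_insert _ _)
      have h2 := ih (fun x hx => h (Set.mem_insert_of_mem _ hx))
      have h1n : a.Normal := h1.1
      exact IsPGroup.to_sup_of_normal_left h1.2 h2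
  exact h _ (Set.toFinite _) le_rfl

/-- two commuting nilpotent subgroups generate a nilpotent subgroup -/
theorem nilp_sup {G : Type u} [Group G] (M K : Subgroup G) (h1 : Group.IsNilpotent M)
    (h2 : Group.IsNilpotent K) (h : ∀ x ∈ M, ∀ y ∈ K, x * y = y * x) :
    Group.IsNilpotent (M ⊔ K : Subgroup G) := by
  let f : M × K →* G := MonoidHom.noncommCoprod M.subtype K.subtype
    (fun x y => h x x.2 y y.2)
  have hr : f.range = M ⊔ K := by
    have h3 := MonoidHom.noncommCoprod_range M.subtype K.subtype (fun x y => h x x.2 y y.2)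
    rw [Subgroup.range_subtype, Subgroup.range_subtype] at h3
    exact h3
  rw [← hr]
  exact Group.nilpotent_of_surjective f.rangeRestrict f.rangeRestrict_surjective

theorem coreP_comm (p q : ℕ) [hp : Fact p.Prime] [hq : Fact q.Prime] (hpq : p ≠ q) (G : Type u)
    [Group G] [Finite G] (x y : G) (hx : x ∈ coreP p G) (hy : y ∈ coreP q G) :
    x * y = y * x := by
  have hd : Disjoint (coreP p G) (coreP q G) :=
    IsPGroup.disjoint_of_ne p q hpq _ _ (coreP_isPGroup p G) (coreP_isPGroup q G)
  exact Subgroup.commute_of_normal_of_disjoint _ _ inferInstance inferInstance hd x y hx hy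

theorem sup_coreP_nilp (G : Type u) [Group G] [Finite G] (s : Finset ℕ)
    (hs : ∀ p ∈ s, p.Prime) : Group.IsNilpotent (⨆ p ∈ s, coreP p G : Subgroup G) := by
  classical
  induction s using Finset.induction_on with
  | empty =>
    have h0 : (⨆ p ∈ (∅ : Finset ℕ), coreP p G) = ⊥ := by simp
    rw [h0]
    infer_instance
  | @insert q s hq ih =>
    have ih' := ih (fun p hp => hs p (Finset.mem_insert_of_mem hp))
    rw [Finset.iSup_insert]
    have hqp : Fact q.Prime := ⟨hs q (Finset.mem_insert_self _ _)⟩
    refine nilp_sup _ _ (coreP_isPGroup q G).isNilpotent ih' ?_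
    intro x hx y hy
    have h1 : (⨆ p ∈ s, coreP p G) ≤ Subgroup.centralizer {x} := by
      refine iSup₂_le ?_
      intro p hp z hz
      have hpp : Fact p.Prime := ⟨hs p (Finset.mem_insert_of_mem hp)⟩
      rw [Subgroup.mem_centralizer_singleton_iff]
      exact (coreP_comm q p (fun h => hq (h ▸ hp)) G x z hx hz).symm
    have h2 := h1 hy
    rw [Subgroup.mem_centralizer_singleton_iff] at h2
    exact h2.symm

/-- Fitting: the Fitting subgroup of a finite group is nilpotent -/
theorem fitting_nilp (G : Type u) [Group G] [Finite G] : Group.IsNilpotent (fitting G) := by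
  have h1 : fitting G ≤ ⨆ p ∈ (Nat.card G).primeFactors, coreP p G := by
    refine sSup_le ?_
    rintro N ⟨hN, hn⟩
    -- every Sylow subgroup of N is normal in G, and N is generated by them
    have h2 : ∀ p : ℕ, p.Prime → ∃ S : Subgroup G, S ≤ N ∧ S ≤ coreP p G ∧
        Nat.card S = p ^ (Nat.card N).factorization p := by
      intro p hp
      have hpf : Fact p.Prime := ⟨hp⟩
      obtain ⟨P⟩ : Nonempty (Sylow p N) := inferInstance
      have hPn : (P : Subgroup N).Normal := inferInstance
      have hPc : (P : Subgroup N).Characteristic := Sylow.characteristic_of_normal P hPn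
      refine ⟨(P : Subgroup N).map N.subtype, ?_, ?_, ?_⟩
      · rintro _ ⟨y, -, rfl⟩
        exact y.2
      · refine le_sSup ⟨?_, ?_⟩
        · exact ConjAct.normal_of_characteristic_of_normal
        · exact P.2.map _
      · rw [Subgroup.card_map_of_injective N.subtype_injective]
        exact P.card_eq_multiplicity
    have h3 : ∀ K : Subgroup G, K ≤ N → (∀ p : ℕ, p.Prime → ∃ S : Subgroup G, S ≤ K ∧
        Nat.card S = p ^ (Nat.card N).factorization p) → N ≤ K := by
      intro K hK h
      have h4 : Nat.card N ∣ Nat.card K := by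
        rw [Nat.dvd_iff_prime_pow_dvd_dvd]
        intro p k hp hk
        obtain ⟨S, hS1, hS2⟩ := h p hp
        have h8 : k ≤ (Nat.card N).factorization p :=
          (hp.pow_dvd_iff_le_factorization Nat.card_pos.ne').1 hk
        exact (pow_dvd_pow p h8).trans (hS2 ▸ Subgroup.card_dvd_of_le hS1)
      have h5 : Nat.card K = Nat.card N :=
        Nat.dvd_antisymm (Subgroup.card_dvd_of_le hK) h4
      exact (Subgroup.eq_of_le_of_card_ge hK h5.ge).ge
    have h6 := h3 (N ⊓ ⨆ p ∈ (Nat.card G).primeFactors, coreP p G) inf_le_left ?_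
    · exact h6.trans inf_le_right
    · intro p hp
      obtain ⟨S, hS1, hS2, hS3⟩ := h2 p hp
      refine ⟨S, ?_, hS3⟩
      by_cases hd : p ∣ Nat.card G
      · refine le_inf hS1 (hS2.trans ?_)
        exact le_iSup₂_of_le p (Nat.mem_primeFactors.2 ⟨hp, hd, Nat.card_pos.ne'⟩) le_rfl
      · have h7 : ¬ p ∣ Nat.card N := fun h => hd (h.trans (Subgroup.card_subgroup_dvd_card N))
        rw [Nat.factorization_eq_zero_of_not_dvd h7, pow_zero] at hS3
        rw [Subgroup.eq_bot_of_card_eq S hS3]
        exact bot_le
  have h8 := sup_coreP_nilp G (Nat.card G).primeFactors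
    (fun p hp => (Nat.mem_primeFactors.1 hp).1)
  exact Group.nilpotent_of_mulEquiv (Subgroup.subgroupOfEquivOfLe h1)

end FT
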