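import Mathlib
import Pool.Agent.helper32.FT.Fit
import Pool.Agent.helper32.FT.FitNil

/-! # FT-FitShift: the Fitting series and surjective homomorphisms -/

namespace FT

universe u v w

/-- the full preimage of `fitting (G ⧸ N)` computed with any surjection of kernel `N` -/
theorem fit_comap {G : Type u} [Group G] {H : Type v} [Group H] (φ : G →* H)
    (hφ : Function.Surjective φ) (N : Subgroup G) [hn : N.Normal] (hN : φ.ker = N) :
    (fitting (G ⧸ N)).comap (QuotientGroup.mk' N) = (fitting H).comap φ := by
  subst hN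
  ext x
  rw [Subgroup.mem_comap, Subgroup.mem_comap]
  let e : G ⧸ φ.ker ≃* H := QuotientGroup.quotientKerEquivOfSurjective φ hφ
  rw [← mem_fitting_equiv e]
  rfl

theorem fitSer_one (G : Type u) [Group G] : fitSer G 1 = fitting G := by
  rw [fitSer_succ G 0, fit_comap (MonoidHom.id G) Function.surjective_id (fitSer G 0)]
  · rfl
  · rw [fitSer_zero]
    rfl

/-- the shift lemma -/
theorem fitSer_shift {G : Type u} [Group G] {H : Type v} [Group H] (φ : G →* H)
    (hφ : Function.Surjective φ) (m : ℕ) (hk : φ.ker = fitSer G m) (n : ℕ) :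
    (fitSer H n).comap φ = fitSer G (m + n) := by
  induction n with
  | zero =>
    rw [fitSer_zero, add_zero, ← hk]
    rfl
  | succ n ih =>
    rw [← add_assoc, fitSer_succ, fitSer_succ, Subgroup.comap_comap]
    refine (fit_comap ((QuotientGroup.mk' (fitSer H n)).comp φ) ?_ (fitSer G (m + n)) ?_).symm
    · exact (QuotientGroup.mk'_surjective _).comp hφ
    · rw [← ih]
      ext x
      rw [MonoidHom.mem_ker, Subgroup.mem_comap, MonoidHom.comp_apply,
        QuotientGroup.mk'_apply, QuotientGroup.eq_one_iff]

theorem fitSer_mono_succ (G : Type u) [Group G] (n : ℕ) : fitSer G n ≤ fitSer G (n + 1) := by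
  rw [fitSer_succ]
  intro x hx
  rw [Subgroup.mem_comap, QuotientGroup.mk'_apply, (QuotientGroup.eq_one_iff x).2 hx]
  exact Subgroup.one_mem _

theorem fitSer_mono (G : Type u) [Group G] {m n : ℕ} (h : m ≤ n) : fitSer G m ≤ fitSer G n :=
  monotone_nat_of_le_succ (fitSer_mono_succ G) h

/-- for an equivalence -/
theorem fitSer_equiv {G : Type u} [Group G] {H : Type v} [Group H] (e : G ≃* H) (n : ℕ) :
    (fitSer H n).comap e.toMonoidHom = fitSer G n := by
  have h := fitSer_shift e.toMonoidHom e.surjective 0 (by
    rw [fitSer_zero, MonoidHom.ker_eq_bot_iff]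
    exact e.injective) n
  rwa [zero_add] at h

end FT
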