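import Mathlib
import Pool.Agent.helper32.FT.Fit
import Pool.Agent.helper32.FT.FitNil
import Pool.Agent.helper32.FT.FitShift

/-! # FT-FitRel: the Fitting series of a normal subgroup `G` of `Γ`, as subgroups of `Γ` -/

namespace FT

universe u v w

/-- `F_n(G)` as a subgroup of the big group `Γ` -/
def FI {Γ : Type u} [Group Γ] (G : Subgroup Γ) (n : ℕ) : Subgroup Γ :=
  (fitSer G n).map G.subtype

variable {Γ : Type u} [Group Γ]

theorem mem_FI {G : Subgroup Γ} {n : ℕ} {x : Γ} :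
    x ∈ FI G n ↔ ∃ h : x ∈ G, (⟨x, h⟩ : G) ∈ fitSer G n := by
  constructor
  · rintro ⟨y, hy, rfl⟩
    exact ⟨y.2, hy⟩
  · rintro ⟨h, h2⟩
    exact ⟨⟨x, h⟩, h2, rfl⟩

theorem FI_le (G : Subgroup Γ) (n : ℕ) : FI G n ≤ G := by
  intro x hx
  exact (mem_FI.1 hx).1

theorem FI_zero (G : Subgroup Γ) : FI G 0 = ⊥ := by
  rw [FI, fitSer_zero, Subgroup.map_bot]

instance fitSer_char (G : Type u) [Group G] (n : ℕ) : (fitSer G n).Characteristic := by
  rw [Subgroup.characteristic_iff_comap_eq]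
  intro e
  exact fitSer_equiv e n

instance FI_normal (G : Subgroup Γ) [G.Normal] (n : ℕ) : (FI G n).Normal :=
  ConjAct.normal_of_characteristic_of_normal

theorem FI_mono (G : Subgroup Γ) {m n : ℕ} (h : m ≤ n) : FI G m ≤ FI G n :=
  Subgroup.map_mono (fitSer_mono G h)

theorem FI_one_nilp [Finite Γ] (G : Subgroup Γ) : Group.IsNilpotent (FI G 1) := by
  have h1 : Group.IsNilpotent (fitSer G 1) := by
    rw [fitSer_one]
    exact fitting_nilp G
  exact Group.nilpotent_of_mulEquiv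
    ((fitSer G 1).equivMapOfInjective G.subtype G.subtype_injective)

theorem le_FI_one (G N : Subgroup Γ) (hN : N.Normal) (h : N ≤ G) (hn : Group.IsNilpotent N) :
    N ≤ FI G 1 := by
  have h1 : N.subgroupOf G ≤ fitting G := by
    refine le_fitting _ inferInstance ?_
    exact Group.nilpotent_of_mulEquiv (Subgroup.subgroupOfEquivOfLe h).symm
  intro x hx
  rw [mem_FI]
  refine ⟨h hx, ?_⟩
  rw [fitSer_one]
  exact h1 (by rw [Subgroup.mem_subgroupOf]; exact hx)

/-- the Fitting series of `G/F(G)`: `F_n(G/F(G)) = F_{n+1}(G)/F(G)` -/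
theorem mem_FI_quot (G : Subgroup Γ) [G.Normal] (n : ℕ) (x : Γ) (hx : x ∈ G) :
    QuotientGroup.mk' (FI G 1) x ∈ FI (G.map (QuotientGroup.mk' (FI G 1))) n ↔
      x ∈ FI G (n + 1) := by
  set π := QuotientGroup.mk' (FI G 1) with hπ
  have hk : (π.subgroupMap G).ker = fitSer G 1 := by
    ext y
    rw [MonoidHom.mem_ker]
    constructor
    · intro h
      have h1 : π y = 1 := congrArg Subtype.val h
      rw [hπ, QuotientGroup.mk'_apply, QuotientGroup.eq_one_iff] at h1
      exact (mem_FI.1 h1).2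
    · intro h
      apply Subtype.ext
      change π y = 1
      rw [hπ, QuotientGroup.mk'_apply, QuotientGroup.eq_one_iff]
      exact mem_FI.2 ⟨y.2, h⟩
  have h1 := fitSer_shift (π.subgroupMap G) (π.subgroupMap_surjective G) 1 hk n
  rw [mem_FI, mem_FI]
  constructor
  · rintro ⟨h2, h3⟩
    refine ⟨hx, ?_⟩
    rw [add_comm, ← h1]
    exact h3
  · rintro ⟨h2, h3⟩
    refine ⟨⟨x, hx, rfl⟩, ?_⟩
    rw [add_comm, ← h1] at h3
    exact h3

end FT
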