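import Mathlib
import Pool.Agent.helper11.FT.Defs
import Pool.Agent.helper11.FT.Cop
import Pool.Agent.helper32.FT.FitRel

/-! # FT-LastT: the last term of a tower (section 1, LAST TERM) -/

namespace FT

universe u v

open scoped commutatorElement

variable {Γ : Type u} [Group Γ]

/-- an element whose powers of prime power order lie in `K` lies in `K` -/
theorem mem_of_parts [Finite Γ] (K : Subgroup Γ) (z : Γ)
    (h : ∀ q : ℕ, q.Prime → ∀ m : ℕ, (∃ a : ℕ, orderOf (z ^ m) = q ^ a) → z ^ m ∈ K) : z ∈ K := by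
  classical
  have hn : 0 < orderOf z := orderOf_pos z
  have h1 : ∃ d : ℕ, 0 < d ∧ z ^ d ∈ K := ⟨orderOf z, hn, by
    rw [pow_orderOf_eq_one]
    exact K.one_mem⟩
  obtain ⟨hd, hdK⟩ := Nat.find_spec h1
  set d := Nat.find h1 with hdd
  have hdiv : ∀ m : ℕ, z ^ m ∈ K → d ∣ m := by
    intro m hm
    rw [Nat.dvd_iff_mod_eq_zero]
    by_contra h2
    have h3 : 0 < m % d := Nat.pos_of_ne_zero h2
    have h4 : z ^ (m % d) ∈ K := by
      have h5 : z ^ m = z ^ (m % d) * (z ^ d) ^ (m / d) := by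
        rw [← pow_mul, ← pow_add, Nat.mod_add_div]
      have h6 : z ^ (m % d) = z ^ m * ((z ^ d) ^ (m / d))⁻¹ := by
        rw [h5]
        group
      rw [h6]
      exact K.mul_mem hm (K.inv_mem (K.pow_mem hdK _))
    exact absurd (Nat.find_min' h1 ⟨h3, h4⟩) (not_le.2 (Nat.mod_lt _ hd))
  rcases eq_or_ne d 1 with h2 | h2
  · rw [h2, pow_one] at hdK
    exact hdK
  · obtain ⟨q, hq, hqd⟩ := Nat.exists_prime_and_dvd h2
    have h3 : orderOf (z ^ (orderOf z / q ^ (orderOf z).factorization q)) =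
        q ^ (orderOf z).factorization q := by
      have h4 : q ^ (orderOf z).factorization q ∣ orderOf z := Nat.ordProj_dvd _ _
      have h5 : orderOf z / q ^ (orderOf z).factorization q ≠ 0 :=
        (Nat.div_pos (Nat.le_of_dvd hn h4) (pow_pos hq.pos _)).ne'
      rw [orderOf_pow_of_dvd h5 (Nat.div_dvd_of_dvd h4)]
      exact Nat.div_div_self h4 hn.ne'
    have h4 := hdiv _ (h q hq _ ⟨_, h3⟩)
    exact absurd (hqd.trans h4) (Nat.not_dvd_ordCompl hq hn.ne')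

/-- the elements of `q`-power order of a nilpotent normal subgroup -/
theorem nilp_part [Finite Γ] (F : Subgroup Γ) [F.Normal] (hF : Group.IsNilpotent F) (q : ℕ)
    (hq : q.Prime) : ∃ X : Subgroup Γ, X.Normal ∧ X ≤ F ∧ IsPGroup q X ∧
      ∀ x ∈ F, (∃ a : ℕ, orderOf x = q ^ a) → x ∈ X := by
  have hqf : Fact q.Prime := ⟨hq⟩
  obtain ⟨P⟩ : Nonempty (Sylow q F) := inferInstance
  have hPn : (P : Subgroup F).Normal := inferInstance
  have hPc : (P : Subgroup F).Characteristic := Sylow.characteristic_of_normal P hPn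
  refine ⟨(P : Subgroup F).map F.subtype, ConjAct.normal_of_characteristic_of_normal, ?_,
    P.2.map _, ?_⟩
  · rintro _ ⟨y, -, rfl⟩
    exact y.2
  · rintro x hx ⟨a, ha⟩
    refine ⟨⟨x, hx⟩, ?_, rfl⟩
    have h1 : IsPGroup q (Subgroup.zpowers (⟨x, hx⟩ : F)) := by
      apply IsPGroup.of_card (n := a)
      rw [Nat.card_zpowers, Subgroup.orderOf_mk]
      exact ha
    have h2 : Subgroup.zpowers (⟨x, hx⟩ : F) ≤ P := by
      obtain ⟨Q, hQ⟩ := h1.exists_le_sylow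
      have h3 : Q = P := by
        obtain ⟨g, hg⟩ := MulAction.exists_smul_eq F P Q
        rw [← hg]
        exact Sylow.smul_eq_of_normal
      rw [← h3]
      exact hQ
    exact h2 (Subgroup.mem_zpowers _)

theorem exists_last [Finite Γ] (G : Subgroup Γ) [G.Normal] (r : ℕ) (hr : r.Prime)
    (R : Subgroup Γ) (hR : IsPGroup r R) (hRF : ¬ R ≤ FI G 1)
    (hR2 : R.map (QuotientGroup.mk' (FI G 1)) ≤ FI (G.map (QuotientGroup.mk' (FI G 1))) 1) :
    ∃ q : ℕ, q.Prime ∧ q ≠ r ∧ ∃ X : Subgroup Γ, X.Normal ∧ X ≤ FI G 1 ∧ IsPGroup q X ∧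
      ¬ ⁅X, R⁆ ≤ ⊥ := by
  classical
  have hrf : Fact r.Prime := ⟨hr⟩
  by_contra hcon
  push Not at hcon
  set F := FI G 1 with hFdef
  have hFG : F ≤ G := FI_le G 1
  set π := QuotientGroup.mk' F with hπ
  have hker : ∀ x, π x = 1 ↔ x ∈ F := fun x => by
    rw [hπ, QuotientGroup.mk'_apply, QuotientGroup.eq_one_iff]
  have hG'n : (G.map π).Normal := Subgroup.Normal.map inferInstance π
    (QuotientGroup.mk'_surjective F)
  obtain ⟨O, hO1, hO2, hO3, hO4⟩ := nilp_part (FI (G.map π) 1) (FI_one_nilp _) r hr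
  have hRO : R.map π ≤ O := by
    intro x hx
    have h1 : IsPGroup r (R.map π) := hR.map π
    obtain ⟨k, hk⟩ := IsPGroup.iff_orderOf.1 h1 ⟨x, hx⟩
    refine hO4 x (hR2 hx) ⟨k, ?_⟩
    rw [← hk, Subgroup.orderOf_mk]
  let C : Subgroup Γ := O.comap π ⊓
    Subgroup.centralizer {z : Γ | z ∈ F ∧ ∃ q : ℕ, q.Prime ∧ q ≠ r ∧ ∃ a : ℕ, orderOf z = q ^ a}
  have hCn : C.Normal := by
    constructor
    rintro x ⟨hx1, hx2⟩ g
    refine ⟨(hO1.comap π).conj_mem x hx1 g, ?_⟩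
    intro z hz
    obtain ⟨hz1, q, hq, hqr, a, ha⟩ := hz
    have h1 : g⁻¹ * z * g ∈ {z : Γ | z ∈ F ∧ ∃ q : ℕ, q.Prime ∧ q ≠ r ∧
        ∃ a : ℕ, orderOf z = q ^ a} := by
      refine ⟨?_, q, hq, hqr, a, ?_⟩
      · have h2 := (inferInstance : F.Normal).conj_mem z hz1 g⁻¹
        rwa [inv_inv] at h2
      · rw [← ha]
        have h3 : g⁻¹ * z * g = MulAut.conj g⁻¹ z := by
          rw [MulAut.conj_apply, inv_inv]
        rw [h3]
        exact orderOf_injective (MulAut.conj g⁻¹).toMonoidHom (MulAut.conj g⁻¹).injective z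
    have h2 := hx2 _ h1
    have h3 : z * (g * x * g⁻¹) = g * ((g⁻¹ * z * g) * x) * g⁻¹ := by group
    rw [h3, h2]
    group
  have hCG : C ≤ G := by
    rintro x ⟨hx1, -⟩
    have h1 : π x ∈ G.map π := FI_le _ _ (hO2 hx1)
    obtain ⟨y, hy, hyx⟩ := h1
    have h2 : y⁻¹ * x ∈ F := by
      rw [← hker, map_mul, map_inv, hyx]
      group
    have h3 : x = y * (y⁻¹ * x) := by group
    rw [h3]
    exact G.mul_mem hy (hFG h2)
  have hCnil : Group.IsNilpotent C := by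
    apply Group.of_quotient_center_nilpotent
    apply IsPGroup.isNilpotent (p := r)
    intro w
    obtain ⟨⟨x, hx⟩, rfl⟩ := QuotientGroup.mk_surjective w
    obtain ⟨a, ha⟩ := hO3 ⟨π x, hx.1⟩
    have ha' : π (x ^ r ^ a) = 1 := by
      rw [map_pow]
      exact congrArg Subtype.val ha
    rw [hker] at ha'
    set y := x ^ r ^ a with hy
    have hy0 : 0 < orderOf y := orderOf_pos y
    set b := (orderOf y).factorization r with hb
    refine ⟨a + b, ?_⟩
    rw [← QuotientGroup.mk_pow, QuotientGroup.eq_one_iff, Subgroup.mem_center_iff]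
    rintro ⟨c, hc⟩
    apply Subtype.ext
    change c * x ^ r ^ (a + b) = x ^ r ^ (a + b) * c
    have hz : x ^ r ^ (a + b) = y ^ r ^ b := by
      rw [hy, ← pow_mul, ← pow_add]
    rw [hz]
    have hord : orderOf (y ^ r ^ b) = orderOf y / r ^ b :=
      orderOf_pow_of_dvd (pow_pos hr.pos _).ne' (Nat.ordProj_dvd _ _)
    have hmem : y ^ r ^ b ∈ Subgroup.centralizer {c} := by
      apply mem_of_parts
      rintro q hq m ⟨k, hk⟩
      rw [Subgroup.mem_centralizer_singleton_iff]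
      by_cases hqr : q = r
      · subst hqr
        have h1 : q ^ k ∣ orderOf y / q ^ b := by
          rw [← hk, ← hord]
          exact orderOf_pow_dvd m
        have h2 : k = 0 := by
          by_contra h3
          exact Nat.not_dvd_ordCompl hq hy0.ne' ((dvd_pow_self q h3).trans h1)
        rw [h2, pow_zero, orderOf_eq_one_iff] at hk
        rw [hk]
        group
      · have h1 := hc.2 ((y ^ r ^ b) ^ m) ⟨F.pow_mem (F.pow_mem ha' _) _, q, hq, hqr, k, hk⟩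
        exact h1
    rw [Subgroup.mem_centralizer_singleton_iff] at hmem
    exact hmem.symm
  have hCF : C ≤ F := le_FI_one G C hCn hCG hCnil
  apply hRF
  refine le_trans ?_ hCF
  intro x hx
  refine ⟨hRO ⟨x, hx, rfl⟩, ?_⟩
  rintro z ⟨hz1, q, hq, hqr, a, ha⟩
  obtain ⟨X, hX1, hX2, hX3, hX4⟩ := nilp_part F (FI_one_nilp G) q hq
  have h1 := hcon q hq hqr X hX1 hX2 hX3
  have h2 := h1 (Subgroup.commutator_mem_commutator (hX4 z hz1 ⟨a, ha⟩) hx)
  rw [Subgroup.mem_bot, commutatorElement_eq_one_iff_mul_comm] at h2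
  exact h2

theorem nrm_commutator (Z R : Subgroup Γ) (m : Γ) (hZ : m ∈ Nrm Z) (hR : m ∈ Nrm R) :
    m ∈ Nrm ⁅Z, R⁆ := by
  have key : ∀ m : Γ, m ∈ Nrm Z → m ∈ Nrm R → ∀ g ∈ ⁅Z, R⁆, m * g * m⁻¹ ∈ ⁅Z, R⁆ := by
    intro m hZ hR
    have h1 : ⁅Z, R⁆ ≤ (⁅Z, R⁆ : Subgroup Γ).comap (MulAut.conj m).toMonoidHom := by
      rw [Subgroup.commutator_le]
      intro z hz r hr
      have h2 : (MulAut.conj m) ⁅z, r⁆ = ⁅m * z * m⁻¹, m * r * m⁻¹⁆ := by
        rw [MulAut.conj_apply, commutatorElement_def, commutatorElement_def]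
        group
      change (MulAut.conj m) ⁅z, r⁆ ∈ ⁅Z, R⁆
      rw [h2]
      exact Subgroup.commutator_mem_commutator ((Subgroup.mem_normalizer_iff.1 hZ z).1 hz)
        ((Subgroup.mem_normalizer_iff.1 hR r).1 hr)
    intro g hg
    exact h1 hg
  rw [Subgroup.mem_normalizer_iff]
  intro g
  refine ⟨key m hZ hR g, fun h => ?_⟩
  have h2 := key m⁻¹ (inv_mem hZ) (inv_mem hR) _ h
  have h3 : m⁻¹ * (m * g * m⁻¹) * m⁻¹⁻¹ = g := by group
  rwa [h3] at h2

/-- the minimal choice of the last term -/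
theorem exists_min_last [Finite Γ] (M X R : Subgroup Γ) (q r : ℕ) (hq : q.Prime) (hr : r.Prime)
    (hqr : q ≠ r) (hX : IsPGroup q X) (hR : IsPGroup r R) (hMX : M ≤ Nrm X) (hMR : M ≤ Nrm R)
    (hRM : R ≤ M) (h : ¬ ⁅X, R⁆ ≤ ⊥) :
    ∃ Z : Subgroup Γ, Z ≤ X ∧ M ≤ Nrm Z ∧ ¬ ⁅Z, R⁆ ≤ ⊥ ∧ ⁅Z, R⁆ = Z ∧
      ∀ T : Subgroup Γ, T ≤ Z → T ≠ Z → M ≤ Nrm T → ⁅T, R⁆ ≤ ⊥ := by
  have hqf : Fact q.Prime := ⟨hq⟩
  have hrf : Fact r.Prime := ⟨hr⟩
  have hfin : Set.Finite {T : Subgroup Γ | T ≤ X ∧ M ≤ Nrm T ∧ ¬ ⁅T, R⁆ ≤ ⊥} := Set.toFinite _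
  obtain ⟨Z, ⟨h1, h2, h3⟩, hmin⟩ :=
    hfin.exists_minimalFor (fun T : Subgroup Γ => Nat.card T) _ ⟨X, le_rfl, hMX, h⟩
  have h4 : ∀ T : Subgroup Γ, T ≤ Z → T ≠ Z → M ≤ Nrm T → ⁅T, R⁆ ≤ ⊥ := by
    intro T hT hne hMT
    by_contra h5
    have h6 := hmin ⟨hT.trans h1, hMT, h5⟩ (Subgroup.card_le_of_le hT)
    exact hne (Subgroup.eq_of_le_of_card_ge hT h6)
  refine ⟨Z, h1, h2, h3, ?_, h4⟩
  by_contra hne
  have hRZ : R ≤ Nrm Z := hRM.trans h2
  have h5 := h4 ⁅Z, R⁆ (comm_le Z R hRZ).1 hne ?_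
  · have hZs : Group.IsSolvable Z := by
      have : Group.IsNilpotent Z := (hX.to_le h1).isNilpotent
      infer_instance
    rw [comm_comm Z R hRZ hZs
      (IsPGroup.coprime_card_of_ne q r hqr Z R (hX.to_le h1) hR)] at h5
    exact h3 h5
  · intro m hm
    exact nrm_commutator Z R m (h2 hm) (hMR hm)

end FT
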