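import Mathlib
import Pool.Agent.helper11.FT.Defs
import Pool.Agent.helper11.FT.Syl
import Pool.Agent.helper11.FT.Syl2

/-! # FT-LiftT: lifting a chain of subgroups (section 1, LIFTING (a)) -/

namespace FT

universe u v

/-- the family `P i` (`i < n`) of subgroups of `G` lifts the family `P' i` along `π` -/
structure Lifted {Γ : Type u} [Group Γ] {Γ' : Type v} [Group Γ'] (π : Γ →* Γ')
    (G Y : Subgroup Γ) (n : ℕ) (P' : ℕ → Subgroup Γ') (p : ℕ → ℕ) (P : ℕ → Subgroup Γ) :
    Prop where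
  le : ∀ i < n, P i ≤ G
  pg : ∀ i < n, IsPGroup (p i) (P i)
  hY : ∀ i < n, Y ≤ Nrm (P i)
  hN : ∀ i j, i < j → j < n → P i ≤ Nrm (P j)
  map : ∀ i < n, (P i).map π = P' i

theorem nrm_inf {Γ : Type u} [Group Γ] {A B : Subgroup Γ} : Nrm A ⊓ Nrm B ≤ Nrm (A ⊓ B) := by
  rintro x ⟨h1, h2⟩
  rw [Subgroup.mem_normalizer_iff] at *
  intro y
  constructor
  · rintro ⟨h3, h4⟩
    exact ⟨(h1 y).1 h3, (h2 y).1 h4⟩
  · rintro ⟨h3, h4⟩
    exact ⟨(h1 y).2 h3, (h2 y).2 h4⟩

theorem nrm_comap {Γ : Type u} [Group Γ] {Γ' : Type v} [Group Γ'] (π : Γ →* Γ')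
    (A : Subgroup Γ') (x : Γ) (hx : π x ∈ Nrm A) : x ∈ Nrm (A.comap π) := by
  rw [Subgroup.mem_normalizer_iff] at *
  intro y
  rw [Subgroup.mem_comap, Subgroup.mem_comap, map_mul, map_mul, map_inv]
  exact hx (π y)

theorem nrm_map {Γ : Type u} [Group Γ] {Γ' : Type v} [Group Γ'] (π : Γ →* Γ')
    (A : Subgroup Γ) (x : Γ) (hx : x ∈ Nrm A) : π x ∈ Nrm (A.map π) := by
  have key : ∀ z ∈ Nrm A, ∀ y ∈ A.map π, π z * y * (π z)⁻¹ ∈ A.map π := by
    rintro z hz _ ⟨y, hy, rfl⟩
    rw [Subgroup.mem_normalizer_iff] at hz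
    exact ⟨z * y * z⁻¹, (hz y).1 hy, by rw [map_mul, map_mul, map_inv]⟩
  rw [Subgroup.mem_normalizer_iff]
  intro y
  refine ⟨key x hx y, fun h => ?_⟩
  have h2 := key x⁻¹ (inv_mem hx) _ h
  rw [map_inv, inv_inv] at h2
  have h3 : (π x)⁻¹ * (π x * y * (π x)⁻¹) * π x = y := by group
  rwa [h3] at h2

/-- image of an invariant Sylow subgroup of a preimage -/
theorem map_sylow_eq {Γ : Type u} [Group Γ] [Finite Γ] {Γ' : Type v} [Group Γ'] (π : Γ →* Γ')
    (H S : Subgroup Γ) (p : ℕ) (hp : p.Prime) (hS : S ≤ H)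
    (hSc : Nat.card S = p ^ (Nat.card H).factorization p) (hH : IsPGroup p (H.map π)) :
    S.map π = H.map π := by
  have : Fact p.Prime := ⟨hp⟩
  have hSc' : Nat.card (S.subgroupOf H) = p ^ (Nat.card H).factorization p := by
    rw [← hSc]
    exact Nat.card_congr (Subgroup.subgroupOfEquivOfLe hS).toEquiv
  let T : Sylow p H := Sylow.ofCard (S.subgroupOf H) hSc'
  have h1 : ¬ p ∣ (S.subgroupOf H).index := T.not_dvd_index
  have h2 : ((S.subgroupOf H).map (π.subgroupMap H)).index ∣ (S.subgroupOf H).index :=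
    Subgroup.index_map_dvd _ (π.subgroupMap_surjective H)
  have h3 : ∃ k, ((S.subgroupOf H).map (π.subgroupMap H)).index = p ^ k := by
    have : Finite (H.map π) := Finite.of_surjective _ (π.subgroupMap_surjective H)
    exact hH.index _
  obtain ⟨k, hk⟩ := h3
  have h4 : ((S.subgroupOf H).map (π.subgroupMap H)).index = 1 := by
    rw [hk] at h2 ⊢
    rcases Nat.eq_zero_or_pos k with h5 | h5
    · rw [h5, pow_zero]
    · exact absurd ((dvd_pow_self p h5.ne').trans h2) h1
  rw [Subgroup.index_eq_one] at h4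
  apply le_antisymm (Subgroup.map_mono hS)
  rintro _ ⟨x, hx, rfl⟩
  have h6 : π.subgroupMap H ⟨x, hx⟩ ∈ (S.subgroupOf H).map (π.subgroupMap H) := by
    rw [h4]
    exact Subgroup.mem_top _
  obtain ⟨y, hy, hyx⟩ := h6
  refine ⟨y, hy, ?_⟩
  exact congrArg Subtype.val hyx

/-- Lifting of a chain. `P' i`, `i < n`, is a family of `p i`-subgroups of the image of `H`,
normalised by the image of `Y`, with `P' i` normalising `P' j` for `i < j`. -/
theorem exists_lift {Γ : Type u} [Group Γ] [Finite Γ] {Γ' : Type v} [Group Γ'] (π : Γ →* Γ')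
    (Y : Subgroup Γ) (P' : ℕ → Subgroup Γ') (p : ℕ → ℕ) (n : ℕ) :
    ∀ H : Subgroup Γ, Group.IsSolvable H → (Nat.card H).Coprime (Nat.card Y) → Y ≤ Nrm H →
    (∀ i < n, (p i).Prime) → (∀ i < n, IsPGroup (p i) (P' i)) →
    (∀ i < n, Y.map π ≤ Nrm (P' i)) → (∀ i j, i < j → j < n → P' i ≤ Nrm (P' j)) →
    (∀ i < n, P' i ≤ H.map π) → ∃ P, Lifted π H Y n P' p P := by
  induction n with
  | zero =>
    intro H _ _ _ _ _ _ _ _
    exact ⟨fun _ => ⊥, fun i h => absurd h (Nat.not_lt_zero i),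
      fun i h => absurd h (Nat.not_lt_zero i), fun i h => absurd h (Nat.not_lt_zero i),
      fun i j _ h => absurd h (Nat.not_lt_zero j), fun i h => absurd h (Nat.not_lt_zero i)⟩
  | succ n ih =>
    intro H hs hc hHY hp hP' hY' hN' hH
    have hHt : Group.IsSolvable (H ⊓ (P' n).comap π : Subgroup Γ) :=
      Group.isSolvable_of_isSolvable_injective (Subgroup.inclusion_injective inf_le_left)
    have hct : (Nat.card (H ⊓ (P' n).comap π : Subgroup Γ)).Coprime (Nat.card Y) :=
      hc.coprime_dvd_left (Subgroup.card_dvd_of_le inf_le_left)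
    have hYt : Y ≤ Nrm (H ⊓ (P' n).comap π) := fun y hy =>
      nrm_inf ⟨hHY hy, nrm_comap π _ y (hY' n (Nat.lt_succ_self n) ⟨y, hy, rfl⟩)⟩
    obtain ⟨S, hS1, hS2, hS3⟩ := exists_inv_sylow (H ⊓ (P' n).comap π) Y hYt hHt hct (p n)
      (hp n (Nat.lt_succ_self n))
    have hmapH : (H ⊓ (P' n).comap π).map π = P' n := by
      apply le_antisymm
      · rintro _ ⟨x, hx, rfl⟩
        exact hx.2
      · intro x hx
        obtain ⟨y, hy, rfl⟩ := hH n (Nat.lt_succ_self n) hx
        exact ⟨y, ⟨hy, hx⟩, rfl⟩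
    have hmapS : S.map π = P' n := by
      rw [map_sylow_eq π _ S (p n) (hp n (Nat.lt_succ_self n)) hS1 hS3 ?_, hmapH]
      rw [hmapH]
      exact hP' n (Nat.lt_succ_self n)
    have hSpg : IsPGroup (p n) S := by
      have : Fact (p n).Prime := ⟨hp n (Nat.lt_succ_self n)⟩
      exact IsPGroup.of_card hS3
    obtain ⟨P, hP⟩ := ih (H ⊓ Nrm S)
      (Group.isSolvable_of_isSolvable_injective (Subgroup.inclusion_injective inf_le_left))
      (hc.coprime_dvd_left (Subgroup.card_dvd_of_le inf_le_left))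
      (fun y hy => nrm_inf ⟨hHY hy, Subgroup.le_normalizer (hS2 hy)⟩)
      (fun i hi => hp i (hi.trans (Nat.lt_succ_self n)))
      (fun i hi => hP' i (hi.trans (Nat.lt_succ_self n)))
      (fun i hi => hY' i (hi.trans (Nat.lt_succ_self n)))
      (fun i j hij hj => hN' i j hij (hj.trans (Nat.lt_succ_self n))) (by
        intro i hi x' hx'
        obtain ⟨x, hx, rfl⟩ := hH i (hi.trans (Nat.lt_succ_self n)) hx'
        have hxN : x ∈ Nrm (H ⊓ (P' n).comap π) :=
          nrm_inf ⟨Subgroup.le_normalizer hx,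
            nrm_comap π _ x (hN' i n hi (Nat.lt_succ_self n) hx')⟩
        obtain ⟨h, hh, -, hx2⟩ := inv_sylow_conj (H ⊓ (P' n).comap π) ⊥ S
          (S.map (MulAut.conj x).toMonoidHom) bot_le hHt (by
            rw [Subgroup.card_bot]
            exact Nat.coprime_one_right _) (p n) (hp n (Nat.lt_succ_self n)) hS1 bot_le hS3
          (by
            rintro _ ⟨y, hy, rfl⟩
            exact (Subgroup.mem_normalizer_iff.1 hxN y).1 (hS1 hy)) bot_le (by
            rw [Subgroup.card_map_of_injective (MulAut.conj x).injective]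
            exact hS3)
        have hN1 : ∀ y ∈ S, (h⁻¹ * x) * y * (h⁻¹ * x)⁻¹ ∈ S := by
          intro y hy
          have h3 := (hx2 (x * y * x⁻¹)).1 ⟨y, hy, rfl⟩
          have h4 : h⁻¹ * (x * y * x⁻¹) * h = (h⁻¹ * x) * y * (h⁻¹ * x)⁻¹ := by group
          rwa [h4] at h3
        have hN2 : h⁻¹ * x ∈ Nrm S := by
          rw [Subgroup.mem_normalizer_iff]
          intro y
          refine ⟨hN1 y, fun h5 => ?_⟩
          have h6 : h * (h⁻¹ * x * y * (h⁻¹ * x)⁻¹) * h⁻¹ ∈
              S.map (MulAut.conj x).toMonoidHom := by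
            rw [hx2]
            have h7 : h⁻¹ * (h * (h⁻¹ * x * y * (h⁻¹ * x)⁻¹) * h⁻¹) * h =
                h⁻¹ * x * y * (h⁻¹ * x)⁻¹ := by group
            rwa [h7]
          obtain ⟨z, hz, hzy⟩ := h6
          have h8 : x * z * x⁻¹ = h * (h⁻¹ * x * y * (h⁻¹ * x)⁻¹) * h⁻¹ := hzy
          have h9 : z = y := by
            have h10 : h * (h⁻¹ * x * y * (h⁻¹ * x)⁻¹) * h⁻¹ = x * y * x⁻¹ := by group
            rw [h10] at h8
            have h11 : z = x⁻¹ * (x * z * x⁻¹) * x := by group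
            rw [h11, h8]
            group
          rwa [← h9]
        have hπh : π h ∈ S.map π := by
          rw [hmapS]
          exact hh.2
        obtain ⟨u, hu, hux⟩ := hπh
        refine ⟨u * (h⁻¹ * x), ⟨H.mul_mem (hS1 hu).1 (H.mul_mem (H.inv_mem hh.1) hx),
          (Nrm S).mul_mem (Subgroup.le_normalizer hu) hN2⟩, ?_⟩
        rw [map_mul, map_mul, map_inv, hux]
        group)
    obtain ⟨PP, e1, e2⟩ : ∃ PP : ℕ → Subgroup Γ, (∀ i < n, PP i = P i) ∧ PP n = S :=
      ⟨fun i => if i < n then P i else S, fun i h => if_pos h, if_neg (lt_irrefl n)⟩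
    have e3 : ∀ i < n + 1, i < n ∨ i = n := fun i hi => by omega
    refine ⟨PP, ?_, ?_, ?_, ?_, ?_⟩
    · intro i hi
      rcases e3 i hi with h | rfl
      · rw [e1 i h]
        exact (hP.le i h).trans inf_le_left
      · rw [e2]
        exact hS1.trans inf_le_left
    · intro i hi
      rcases e3 i hi with h | rfl
      · rw [e1 i h]
        exact hP.pg i h
      · rw [e2]
        exact hSpg
    · intro i hi
      rcases e3 i hi with h | rfl
      · rw [e1 i h]
        exact hP.hY i h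
      · rw [e2]
        exact hS2
    · intro i j hij hj
      rcases e3 j hj with h | rfl
      · rw [e1 j h, e1 i (hij.trans h)]
        exact hP.hN i j hij h
      · rw [e2, e1 i hij]
        exact (hP.le i hij).trans inf_le_right
    · intro i hi
      rcases e3 i hi with h | rfl
      · rw [e1 i h]
        exact hP.map i h
      · rw [e2]
        exact hmapS

end FT
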