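import Mathlib
import Pool.Agent.helper11.FT.Defs
import Pool.Agent.helper32.FT.LiftT

/-! # FT-LiftMin: minimal lifts (section 1, LIFTING (b)) -/

namespace FT

universe u v

/-- minimality of a lifted chain -/
def MinLift {Γ : Type u} [Group Γ] {Γ' : Type v} [Group Γ'] (π : Γ →* Γ')
    (Y : Subgroup Γ) (n : ℕ) (P' : ℕ → Subgroup Γ') (P : ℕ → Subgroup Γ) : Prop :=
  ∀ i < n, ∀ R : Subgroup Γ, R ≤ P i → Y ≤ Nrm R → (∀ j < i, P j ≤ Nrm R) →
    R.map π = P' i → R = P i

theorem exists_lift_min {Γ : Type u} [Group Γ] [Finite Γ] {Γ' : Type v} [Group Γ'] (π : Γ →* Γ')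
    (G Y : Subgroup Γ) (n : ℕ) (P' : ℕ → Subgroup Γ') (p : ℕ → ℕ)
    (h : ∃ P, Lifted π G Y n P' p P) :
    ∃ P, Lifted π G Y n P' p P ∧ MinLift π Y n P' P := by
  classical
  have h1 : ∃ k : ℕ, ∃ P, Lifted π G Y n P' p P ∧
      ∑ i ∈ Finset.range n, Nat.card (P i) = k := by
    obtain ⟨P, hP⟩ := h
    exact ⟨_, P, hP, rfl⟩
  obtain ⟨P, hP, hk⟩ := Nat.find_spec h1
  refine ⟨P, hP, ?_⟩
  intro i hi R hR hY hj hmap
  by_contra hne
  have hlt : Nat.card R < Nat.card (P i) := by
    rcases lt_or_ge (Nat.card R) (Nat.card (P i)) with h2 | h2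
    · exact h2
    · exact absurd (Subgroup.eq_of_le_of_card_ge hR h2) hne
  obtain ⟨PP, e1, e2⟩ : ∃ PP : ℕ → Subgroup Γ, (∀ j, j ≠ i → PP j = P j) ∧ PP i = R :=
    ⟨Function.update P i R, fun j h => Function.update_of_ne h _ _, Function.update_self _ _ _⟩
  have hPP : Lifted π G Y n P' p PP := by
    refine ⟨?_, ?_, ?_, ?_, ?_⟩
    · intro j hj2
      rcases eq_or_ne j i with rfl | h3
      · rw [e2]
        exact hR.trans (hP.le j hj2)
      · rw [e1 j h3]
        exact hP.le j hj2
    · intro j hj2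
      rcases eq_or_ne j i with rfl | h3
      · rw [e2]
        exact (hP.pg j hj2).to_le hR
      · rw [e1 j h3]
        exact hP.pg j hj2
    · intro j hj2
      rcases eq_or_ne j i with rfl | h3
      · rw [e2]
        exact hY
      · rw [e1 j h3]
        exact hP.hY j hj2
    · intro a b hab hb
      rcases eq_or_ne a i with rfl | h3
      · rw [e2, e1 b hab.ne']
        exact hR.trans (hP.hN a b hab hb)
      · rw [e1 a h3]
        rcases eq_or_ne b i with rfl | h4
        · rw [e2]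
          exact hj a hab
        · rw [e1 b h4]
          exact hP.hN a b hab hb
    · intro j hj2
      rcases eq_or_ne j i with rfl | h3
      · rw [e2]
        exact hmap
      · rw [e1 j h3]
        exact hP.map j hj2
  have hsum : ∑ j ∈ Finset.range n, Nat.card (PP j) < ∑ j ∈ Finset.range n, Nat.card (P j) := by
    refine Finset.sum_lt_sum ?_ ⟨i, Finset.mem_range.2 hi, ?_⟩
    · intro j _
      rcases eq_or_ne j i with rfl | h3
      · rw [e2]
        exact hlt.le
      · rw [e1 j h3]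
    · rw [e2]
      exact hlt
  exact absurd (Nat.find_min' h1 ⟨PP, hPP, rfl⟩) (by rw [← hk]; exact not_le.2 hsum)

end FT
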