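import Mathlib
import Pool.Agent.helper11.FT.Defs
import Pool.Agent.helper11.FT.Cop
import Pool.Agent.helper11.FT.Cop2
import Pool.Agent.helper11.FT.Tower
import Pool.Agent.helper32.FT.LiftT
import Pool.Agent.helper32.FT.LiftMin
import Pool.Agent.helper32.FT.LastT

/-! # FT-Chk: the lifted tower with its new last term is a tower (section 1, CHECK) -/

namespace FT

universe u v

open scoped commutatorElement

/-- `{x ∈ R : [x,S] ⊆ Q}` -/
def CQ {Γ : Type u} [Group Γ] (R S Q : Subgroup Γ) (h : R ≤ Nrm Q) : Subgroup Γ where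
  carrier := {x | x ∈ R ∧ ∀ y ∈ S, ⁅x, y⁆ ∈ Q}
  one_mem' := ⟨R.one_mem, fun y _ => by
    rw [commutatorElement_one_left]
    exact Q.one_mem⟩
  mul_mem' := by
    rintro a b ⟨ha, ha2⟩ ⟨hb, hb2⟩
    refine ⟨R.mul_mem ha hb, fun y hy => ?_⟩
    have h1 : ⁅a * b, y⁆ = (a * ⁅b, y⁆ * a⁻¹) * ⁅a, y⁆ := by
      rw [commutatorElement_def, commutatorElement_def, commutatorElement_def]
      group
    rw [h1]
    exact Q.mul_mem ((Subgroup.mem_normalizer_iff.1 (h ha) _).1 (hb2 y hy)) (ha2 y hy)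
  inv_mem' := by
    rintro a ⟨ha, ha2⟩
    refine ⟨R.inv_mem ha, fun y hy => ?_⟩
    have h1 : ⁅a⁻¹, y⁆ = a⁻¹ * ⁅a, y⁆⁻¹ * a⁻¹⁻¹ := by
      rw [commutatorElement_def, commutatorElement_def]
      group
    rw [h1]
    exact (Subgroup.mem_normalizer_iff.1 (h (R.inv_mem ha)) _).1 (Q.inv_mem (ha2 y hy))

theorem nrm_centralizer {Γ : Type u} [Group Γ] (Z : Subgroup Γ) (m : Γ) (h : m ∈ Nrm Z) :
    m ∈ Nrm (Subgroup.centralizer (Z : Set Γ)) := by
  have key : ∀ m : Γ, m ∈ Nrm Z → ∀ g ∈ Subgroup.centralizer (Z : Set Γ),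
      m * g * m⁻¹ ∈ Subgroup.centralizer (Z : Set Γ) := by
    intro m hm g hg z hz
    have h1 : m⁻¹ * z * m ∈ Z := by
      have h2 := (Subgroup.mem_normalizer_iff.1 (inv_mem hm) z).1 hz
      rwa [inv_inv] at h2
    have h2 := hg _ h1
    have h3 : z * (m * g * m⁻¹) = m * ((m⁻¹ * z * m) * g) * m⁻¹ := by group
    rw [h3, h2]
    group
  rw [Subgroup.mem_normalizer_iff]
  intro g
  refine ⟨key m h g, fun h2 => ?_⟩
  have h3 := key m⁻¹ (inv_mem h) _ h2
  have h4 : m⁻¹ * (m * g * m⁻¹) * m⁻¹⁻¹ = g := by group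
  rwa [h4] at h3

theorem cop_of_pgroup {Γ : Type u} [Group Γ] [Finite Γ] (G Y P : Subgroup Γ) (p : ℕ)
    (hp : p.Prime) (hc : (Nat.card G).Coprime (Nat.card Y)) (hPG : P ≤ G) (hP : IsPGroup p P)
    (hne : ¬ P ≤ ⊥) : p.Coprime (Nat.card Y) := by
  have : Fact p.Prime := ⟨hp⟩
  have h1 : p ∣ Nat.card P := by
    obtain ⟨k, hk⟩ := IsPGroup.iff_card.1 hP
    rcases Nat.eq_zero_or_pos k with h2 | h2
    · rw [h2, pow_zero] at hk
      exact absurd (Subgroup.eq_bot_of_card_eq P hk).le hne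
    · rw [hk]
      exact dvd_pow_self p h2.ne'
  exact hc.coprime_dvd_left (h1.trans (Subgroup.card_dvd_of_le hPG))

/-- assembling the tower -/
theorem assemble {Γ : Type u} [Group Γ] [Finite Γ] {Γ' : Type v} [Group Γ'] [Finite Γ']
    (π : Γ →* Γ') (G Y F : Subgroup Γ) (hF : Group.IsNilpotent F) (hFG : F ≤ G)
    (hker : ∀ x, π x = 1 → x ∈ F) (hc : (Nat.card G).Coprime (Nat.card Y))
    (T' : TowerCore Γ') (hTY : T'.Y = Y.map π) (P : ℕ → Subgroup Γ)
    (hP : Lifted π G Y (T'.n + 1) T'.P T'.p P) (hmin : MinLift π Y (T'.n + 1) T'.P P)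
    (q : ℕ) (hq : q.Prime) (hqp : q ≠ T'.p T'.n) (Z : Subgroup Γ) (hZF : Z ≤ F)
    (hZ : IsPGroup q Z) (hYZ : Y ≤ Nrm Z) (hPZ : ∀ i ≤ T'.n, P i ≤ Nrm Z)
    (h1 : ¬ ⁅Z, P T'.n⁆ ≤ ⊥) (h2 : ⁅Z, P T'.n⁆ = Z)
    (h3 : ∀ R : Subgroup Γ, R ≤ Z → R ≠ Z → Y ≤ Nrm R → (∀ i ≤ T'.n, P i ≤ Nrm R) →
      ⁅R, P T'.n⁆ ≤ ⊥) :
    ∃ T : TowerCore Γ, T.n = T'.n + 1 ∧ T.Y = Y ∧ T.p 0 = T'.p 0 ∧
      (∀ i ≤ T.n, T.P i ≤ G) ∧ T.P T.n ≤ F := by
  set n := T'.n with hn
  -- elements of `F` in the last lifted term centralise `Z`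
  have hK : ∀ x ∈ P n, x ∈ F → x ∈ Subgroup.centralizer (Z : Set Γ) := by
    intro x hx hxF z hz
    have : Fact q.Prime := ⟨hq⟩
    have : Fact (T'.p n).Prime := ⟨T'.hp n le_rfl⟩
    obtain ⟨a, ha⟩ := IsPGroup.iff_orderOf.1 (hP.pg n (Nat.lt_succ_self n)) ⟨x, hx⟩
    obtain ⟨b, hb⟩ := IsPGroup.iff_orderOf.1 hZ ⟨z, hz⟩
    rw [Subgroup.orderOf_mk] at ha hb
    exact commute_of_nilpotent F hF q (T'.p n) hq (T'.hp n le_rfl) hqp z x (hZF hz) hxF
      ⟨b, hb⟩ ⟨a, ha⟩
  obtain ⟨Q1, hQ1⟩ : ∃ Q1 : Subgroup Γ, Q1 = P n ⊓ Subgroup.centralizer (Z : Set Γ) :=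
    ⟨_, rfl⟩
  have hPn : ∀ i ≤ n, P i ≤ Nrm (P n) := by
    intro i hi
    rcases hi.lt_or_eq with h | h
    · exact hP.hN i n h (Nat.lt_succ_self n)
    · rw [h]
      exact Subgroup.le_normalizer
  have hQ1Y : Y ≤ Nrm Q1 := by
    rw [hQ1]
    exact fun y hy => nrm_inf ⟨hP.hY n (Nat.lt_succ_self n) hy, nrm_centralizer Z y (hYZ hy)⟩
  have hQ1P : ∀ i ≤ n, P i ≤ Nrm Q1 := by
    intro i hi
    rw [hQ1]
    exact fun y hy => nrm_inf ⟨hPn i hi hy, nrm_centralizer Z y (hPZ i hi hy)⟩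
  have hQ1le : Q1 ≤ P n := by
    rw [hQ1]
    exact inf_le_left
  have hQ1ne : ¬ P n ≤ Q1 := by
    intro h
    apply h1
    rw [Subgroup.commutator_le]
    intro z hz x hx
    have h4 : x ∈ Subgroup.centralizer (Z : Set Γ) := by
      have h5 := h hx
      rw [hQ1] at h5
      exact h5.2
    rw [Subgroup.mem_bot, commutatorElement_eq_one_iff_mul_comm]
    exact h4 z hz
  have hQ1map : Q1.map π ≠ T'.P n := by
    intro h
    have h4 := hmin n (Nat.lt_succ_self n) Q1 hQ1le hQ1Y (fun j hj => hQ1P j hj.le) h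
    exact hQ1ne h4.ge
  have hmap : ∀ i ≤ n, (P i).map π = T'.P i := fun i hi => hP.map i (Nat.lt_succ_of_le hi)
  have hmem : ∀ i ≤ n, ∀ x ∈ P i, π x ∈ T'.P i := by
    intro i hi x hx
    rw [← hmap i hi]
    exact ⟨x, hx, rfl⟩
  -- the claim for the level `n - 1`
  have hclaim : ∀ i, i + 1 = n → ∀ x, (x ∈ P i ∧ π x ∈ T'.Q i) ↔
      (x ∈ P i ∧ ∀ y ∈ P n, ⁅x, y⁆ ∈ Q1) := by
    intro i hi x
    have hQn : T'.Q n = ⊥ := T'.Qn
    have hi' : i ≤ n := by omega
    constructor
    · rintro ⟨hx, hx2⟩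
      refine ⟨hx, fun y hy => ?_⟩
      have h4 := (T'.Qi i (by omega) (π x)).1 hx2
      have h5 := h4.2 (π y) (by rw [hi]; exact hmem n le_rfl y hy)
      rw [hi, hQn, Subgroup.mem_bot] at h5
      have h6 : π ⁅x, y⁆ = 1 := by rw [map_commutatorElement, h5]
      have h7 : ⁅x, y⁆ ∈ P n := by
        rw [commutatorElement_def]
        exact (P n).mul_mem ((Subgroup.mem_normalizer_iff.1 (hPn i hi' hx) y).1 hy)
          ((P n).inv_mem hy)
      rw [hQ1]
      exact ⟨h7, hK _ h7 (hker _ h6)⟩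
    · rintro ⟨hx, hx2⟩
      refine ⟨hx, ?_⟩
      have hS3 : ⁅Q1.map π, T'.P i⁆ ≤ T'.Q (i + 1) := by
        refine T'.T3 i (by omega) (Q1.map π) ?_ ?_ ?_ ?_
        · rw [hi, ← hmap n le_rfl]
          exact Subgroup.map_mono hQ1le
        · rw [hi]
          exact hQ1map
        · rw [hTY]
          rintro _ ⟨y, hy, rfl⟩
          exact nrm_map π Q1 y (hQ1Y hy)
        · intro j hj
          rw [← hmap j (hj.trans hi')]
          rintro _ ⟨y, hy, rfl⟩
          exact nrm_map π Q1 y (hQ1P j (hj.trans hi') hy)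
      rw [hi, hQn] at hS3
      have hMP : (CQ (P i) (P n) Q1 (hQ1P i hi')).map π ≤ T'.P i := by
        rw [← hmap i hi']
        exact Subgroup.map_mono (fun z hz => hz.1)
      have : Fact (T'.p n).Prime := ⟨T'.hp n le_rfl⟩
      have : Fact (T'.p i).Prime := ⟨T'.hp i hi'⟩
      have htf : ⁅T'.P n, (CQ (P i) (P n) Q1 (hQ1P i hi')).map π⁆ ≤ ⊥ := by
        refine triv_of_factors (T'.P n) _ (Q1.map π) ⊥ ?_ ?_ ?_ ?_ ?_
        · exact hMP.trans (T'.hN i n (by omega) le_rfl)
        · have : Group.IsNilpotent (T'.P n) := (T'.hP n le_rfl).isNilpotent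
          infer_instance
        · refine Nat.Coprime.coprime_dvd_right (Subgroup.card_dvd_of_le hMP) ?_
          refine IsPGroup.coprime_card_of_ne (T'.p n) (T'.p i) ?_ _ _ (T'.hP n le_rfl)
            (T'.hP i hi')
          have h4 := T'.adj i (by omega)
          rw [hi] at h4
          exact h4.symm
        · rw [← hmap n le_rfl, ← Subgroup.map_commutator]
          refine Subgroup.map_mono ?_
          rw [Subgroup.commutator_le]
          intro y hy z hz
          rw [← commutatorElement_inv]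
          exact Q1.inv_mem (hz.2 y hy)
        · exact (Subgroup.commutator_mono le_rfl hMP).trans hS3
      rw [T'.Qi i (by omega) (π x)]
      refine ⟨hmem i hi' x hx, ?_⟩
      intro y' hy'
      rw [hi, hQn, Subgroup.mem_bot]
      have h4 : ⁅y', π x⁆ ∈ (⊥ : Subgroup Γ') := by
        refine htf (Subgroup.commutator_mem_commutator ?_ ⟨x, ⟨hx, hx2⟩, rfl⟩)
        rw [hi] at hy'
        exact hy'
      rw [Subgroup.mem_bot] at h4
      rw [← commutatorElement_inv, h4, inv_one]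
  -- the families
  obtain ⟨PP, e1, e2⟩ : ∃ PP : ℕ → Subgroup Γ, (∀ i ≤ n, PP i = P i) ∧ PP (n + 1) = Z :=
    ⟨fun i => if i ≤ n then P i else Z, fun i h => if_pos h, if_neg (by omega)⟩
  obtain ⟨pp, f1, f2⟩ : ∃ pp : ℕ → ℕ, (∀ i ≤ n, pp i = T'.p i) ∧ pp (n + 1) = q :=
    ⟨fun i => if i ≤ n then T'.p i else q, fun i h => if_pos h, if_neg (by omega)⟩
  obtain ⟨QQ, g1, g2, g3⟩ : ∃ QQ : ℕ → Subgroup Γ, (∀ i < n, QQ i = P i ⊓ (T'.Q i).comap π) ∧
      QQ n = Q1 ∧ QQ (n + 1) = ⊥ :=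
    ⟨fun i => if i < n then P i ⊓ (T'.Q i).comap π else if i = n then Q1 else ⊥,
      fun i h => if_pos h, (if_neg (lt_irrefl n)).trans (if_pos rfl),
      (if_neg (by omega)).trans (if_neg (by omega))⟩
  have hcase : ∀ i ≤ n + 1, i ≤ n ∨ i = n + 1 := fun i hi => by omega
  have hcase2 : ∀ i < n + 1, (i < n ∧ i + 1 < n) ∨ i + 1 = n ∨ i = n := fun i hi => by omega
  have hZne : ¬ Z ≤ ⊥ := by
    intro h
    apply h1
    rw [h2]
    exact h
  have hPne : ∀ i ≤ n, ¬ P i ≤ ⊥ := by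
    intro i hi h
    apply T'.T1 i hi
    rw [← hmap i hi]
    rintro _ ⟨y, hy, rfl⟩
    have h4 := h hy
    rw [Subgroup.mem_bot] at h4
    rw [h4, map_one]
    exact Subgroup.one_mem _
  refine ⟨{ n := n + 1, P := PP, Q := QQ, p := pp, Y := Y, hp := ?_, hP := ?_, adj := ?_,
            cop := ?_, hY := ?_, hN := ?_, Qn := g3, Qi := ?_, T1 := ?_, T2 := ?_, T3 := ?_,
            T4 := ?_ }, rfl, rfl, f1 0 (Nat.zero_le n), ?_, ?_⟩
  · intro i hi
    rcases hcase i hi with h | rfl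
    · rw [f1 i h]
      exact T'.hp i h
    · rw [f2]
      exact hq
  · intro i hi
    rcases hcase i hi with h | rfl
    · rw [f1 i h, e1 i h]
      exact hP.pg i (by omega)
    · rw [f2, e2]
      exact hZ
  · intro i hi
    rcases hcase (i + 1) hi with h | h
    · rw [f1 i (by omega), f1 (i + 1) h]
      exact T'.adj i h
    · rw [h, f2, f1 i (by omega)]
      have h4 : i = n := by omega
      rw [h4]
      exact hqp.symm
  · intro i hi
    rcases hcase i hi with h | rfl
    · rw [f1 i h]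
      exact cop_of_pgroup G Y (P i) _ (T'.hp i h) hc (hP.le i (by omega)) (hP.pg i (by omega))
        (hPne i h)
    · rw [f2]
      exact cop_of_pgroup G Y Z q hq hc (hZF.trans hFG) hZ hZne
  · intro i hi
    rcases hcase i hi with h | rfl
    · rw [e1 i h]
      exact hP.hY i (by omega)
    · rw [e2]
      exact hYZ
  · intro i j hij hj
    rcases hcase j hj with h | rfl
    · rw [e1 i (by omega), e1 j h]
      exact hP.hN i j hij (by omega)
    · rw [e2, e1 i (by omega)]
      exact hPZ i (by omega)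
  · intro i hi x
    rcases hcase2 i hi with ⟨h, h'⟩ | h | h
    · rw [g1 i h, g1 (i + 1) h', e1 i h.le, e1 (i + 1) h]
      constructor
      · rintro ⟨hx, hx2⟩
        refine ⟨hx, fun y hy => ⟨?_, ?_⟩⟩
        · rw [commutatorElement_def]
          exact (P (i + 1)).mul_mem ((Subgroup.mem_normalizer_iff.1
            (hP.hN i (i + 1) (Nat.lt_succ_self i) (by omega) hx) y).1 hy)
            ((P (i + 1)).inv_mem hy)
        · change π ⁅x, y⁆ ∈ T'.Q (i + 1)
          rw [map_commutatorElement]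
          exact ((T'.Qi i h (π x)).1 hx2).2 (π y) (hmem (i + 1) h y hy)
      · rintro ⟨hx, hx2⟩
        refine ⟨hx, ?_⟩
        change π x ∈ T'.Q i
        rw [T'.Qi i h (π x)]
        refine ⟨hmem i h.le x hx, ?_⟩
        intro y' hy'
        rw [← hmap (i + 1) h] at hy'
        obtain ⟨y, hy, rfl⟩ := hy'
        rw [← map_commutatorElement]
        exact (hx2 y hy).2
    · rw [g1 i (by omega), h, g2, e1 i (by omega), e1 n le_rfl]
      exact hclaim i h x
    · subst h
      rw [g2, g3, e1 n le_rfl, e2, hQ1]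
      constructor
      · rintro ⟨hx, hx2⟩
        refine ⟨hx, fun y hy => ?_⟩
        rw [Subgroup.mem_bot, commutatorElement_eq_one_iff_mul_comm]
        exact (hx2 y hy).symm
      · rintro ⟨hx, hx2⟩
        refine ⟨hx, fun y hy => ?_⟩
        have h4 := hx2 y hy
        rw [Subgroup.mem_bot, commutatorElement_eq_one_iff_mul_comm] at h4
        exact h4.symm
  · intro i hi
    rcases hcase i hi with h | rfl
    · rcases h.lt_or_eq with h5 | rfl
      · rw [e1 i h, g1 i h5]
        intro h6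
        apply T'.T1 i h
        rw [← hmap i h]
        rintro _ ⟨y, hy, rfl⟩
        exact (h6 hy).2
      · rw [e1 n h, g2]
        exact hQ1ne
    · rw [e2, g3]
      exact hZne
  · intro i hi
    rcases (Nat.lt_succ_iff.1 hi).lt_or_eq with h | rfl
    · rw [e1 (i + 1) h, e1 i h.le]
      refine hmin (i + 1) (by omega) _ (comm_le _ _ (hP.hN i (i + 1) (Nat.lt_succ_self i)
        (by omega))).1 ?_ ?_ ?_
      · intro y hy
        exact nrm_commutator _ _ y (hP.hY (i + 1) (by omega) hy) (hP.hY i (by omega) hy)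
      · intro j hj y hy
        refine nrm_commutator _ _ y (hP.hN j (i + 1) hj (by omega) hy) ?_
        rcases (Nat.lt_succ_iff.1 hj).lt_or_eq with h5 | rfl
        · exact hP.hN j i h5 (by omega) hy
        · exact Subgroup.le_normalizer hy
      · rw [Subgroup.map_commutator, hmap (i + 1) h, hmap i h.le]
        exact T'.T2 i h
    · rw [e2, e1 n le_rfl]
      exact h2
  · intro i hi R hR hRne hRY hRP
    rcases hcase2 i hi with ⟨h, h'⟩ | h | h
    · rw [e1 (i + 1) h] at hR hRne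
      rw [e1 i h.le, g1 (i + 1) h']
      have hPi : P i ≤ Nrm R := by
        have h6 := hRP i le_rfl
        rwa [e1 i h.le] at h6
      have h5 : R.map π ≠ T'.P (i + 1) := fun h6 =>
        hRne (hmin (i + 1) (by omega) R hR hRY (fun j hj => by
          have h7 := hRP j (by omega)
          rwa [e1 j (by omega)] at h7) h6)
      have h8 := T'.T3 i h (R.map π) (by
        rw [← hmap (i + 1) h]
        exact Subgroup.map_mono hR) h5 (by
        rw [hTY]
        rintro _ ⟨y, hy, rfl⟩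
        exact nrm_map π R y (hRY hy)) (by
        intro j hj
        rw [← hmap j (by omega)]
        rintro _ ⟨y, hy, rfl⟩
        have h7 := hRP j hj
        rw [e1 j (by omega)] at h7
        exact nrm_map π R y (h7 hy))
      refine le_inf ((comm_le R (P i) hPi).1.trans hR) ?_
      rw [← Subgroup.map_le_iff_le_comap, Subgroup.map_commutator, hmap i h.le]
      exact h8
    · rw [e1 (i + 1) (by omega)] at hR hRne
      rw [e1 i (by omega), h, g2]
      have hin : i < n := by omega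
      have hPi : P i ≤ Nrm R := by
        have h6 := hRP i le_rfl
        rwa [e1 i hin.le] at h6
      have h5 : R.map π ≠ T'.P (i + 1) := fun h6 =>
        hRne (hmin (i + 1) (by omega) R hR hRY (fun j hj => by
          have h7 := hRP j (by omega)
          rwa [e1 j (by omega)] at h7) h6)
      have h8 := T'.T3 i hin (R.map π) (by
        rw [← hmap (i + 1) hin]
        exact Subgroup.map_mono hR) h5 (by
        rw [hTY]
        rintro _ ⟨y, hy, rfl⟩
        exact nrm_map π R y (hRY hy)) (by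
        intro j hj
        rw [← hmap j (by omega)]
        rintro _ ⟨y, hy, rfl⟩
        have h7 := hRP j hj
        rw [e1 j (by omega)] at h7
        exact nrm_map π R y (h7 hy))
      have h9 : ⁅R, P i⁆ ≤ P n := by
        have h10 := (comm_le R (P i) hPi).1.trans hR
        rwa [h] at h10
      have h11 : (⁅R, P i⁆ : Subgroup Γ).map π ≤ ⊥ := by
        rw [Subgroup.map_commutator, hmap i hin.le]
        have h12 : T'.Q (i + 1) = ⊥ := by
          rw [h]
          exact T'.Qn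
        rwa [h12] at h8
      intro x hx
      have h13 : π x = 1 := by
        have h14 := h11 ⟨x, hx, rfl⟩
        rwa [Subgroup.mem_bot] at h14
      rw [hQ1]
      exact ⟨h9 hx, hK x (h9 hx) (hker x h13)⟩
    · subst h
      rw [e2] at hR hRne
      rw [e1 n le_rfl, g3]
      refine h3 R hR hRne hRY ?_
      intro j hj
      have h7 := hRP j hj
      rwa [e1 j hj] at h7
  · intro R hR hRne hRY
    rw [e1 0 (Nat.zero_le n)] at hR hRne
    have h5 : R.map π ≠ T'.P 0 := fun h6 =>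
      hRne (hmin 0 (by omega) R hR hRY (fun j hj => absurd hj (Nat.not_lt_zero j)) h6)
    have h8 := T'.T4 (R.map π) (by
      rw [← hmap 0 (Nat.zero_le n)]
      exact Subgroup.map_mono hR) h5 (by
      rw [hTY]
      rintro _ ⟨y, hy, rfl⟩
      exact nrm_map π R y (hRY hy))
    rcases Nat.eq_zero_or_pos n with h6 | h6
    · have h7 : QQ 0 = Q1 := by rw [← g2, h6]
      rw [h7, hQ1]
      intro x hx
      have h9 : π x = 1 := by
        have h10 := h8 ⟨x, hx, rfl⟩
        have h11 : T'.Q 0 = ⊥ := by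
          have h12 := T'.Qn
          rw [← hn, h6] at h12
          exact h12
        rwa [h11, Subgroup.mem_bot] at h10
      have h12 : x ∈ P n := by
        rw [h6]
        exact hR hx
      exact ⟨h12, hK x h12 (hker x h9)⟩
    · rw [g1 0 h6]
      exact le_inf hR (Subgroup.map_le_iff_le_comap.1 h8)
  · intro i hi
    rcases hcase i hi with h | rfl
    · change PP i ≤ G
      rw [e1 i h]
      exact hP.le i (by omega)
    · change PP (n + 1) ≤ G
      rw [e2]
      exact hZF.trans hFG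
  · change PP (n + 1) ≤ F
    rw [e2]
    exact hZF

end FT
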