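import Mathlib
import Pool.Agent.helper11.FT.Defs
import Pool.Agent.helper11.FT.Tower
import Pool.Agent.helper32.FT.FitRel
import Pool.Agent.helper32.FT.LiftT
import Pool.Agent.helper32.FT.LiftMin
import Pool.Agent.helper32.FT.LastT
import Pool.Agent.helper32.FT.Chk

/-! # FT-TA: Theorem A of the plan (existence of towers) -/

namespace FT

universe u v

open scoped commutatorElement

theorem le_nrm_of_normal {Γ : Type u} [Group Γ] (M X : Subgroup Γ) [h : X.Normal] :
    M ≤ Nrm X := by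
  have h1 : Nrm X = ⊤ := Subgroup.normalizer_eq_top X
  rw [h1]
  exact le_top

theorem towerA (n : ℕ) : ∀ {Γ : Type u} [Group Γ] [Finite Γ] (G Y R : Subgroup Γ) [G.Normal],
    Group.IsSolvable G → (Nat.card G).Coprime (Nat.card Y) → ∀ p : ℕ, p.Prime →
    IsPGroup p R → R ≤ G → Y ≤ Nrm R → R ≤ FI G (n + 1) → ¬ R ≤ FI G n →
    ∃ T : TowerCore Γ, T.n = n ∧ T.Y = Y ∧ T.p 0 = p ∧ (∀ i ≤ T.n, T.P i ≤ G) ∧
      T.P T.n ≤ FI G 1 := by
  induction n with
  | zero =>
    intro Γ _ _ G Y R _ hs hc p hp hR hRG hYR h1 h2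
    rw [FI_zero] at h2
    rw [zero_add] at h1
    have hfin : Set.Finite {T : Subgroup Γ | T ≤ R ∧ Y ≤ Nrm T ∧ ¬ T ≤ ⊥} := Set.toFinite _
    obtain ⟨Z, ⟨h3, h4, h5⟩, hmin⟩ :=
      hfin.exists_minimalFor (fun T : Subgroup Γ => Nat.card T) _ ⟨R, le_rfl, hYR, h2⟩
    have hlt : ∀ i j : ℕ, i < j → ¬ j ≤ 0 := fun i j hij hj => by omega
    refine ⟨{ n := 0, P := fun _ => Z, Q := fun _ => ⊥, p := fun _ => p, Y := Y,
              hp := fun _ _ => hp, hP := fun _ _ => hR.to_le h3,
              adj := fun i hi => absurd hi (Nat.not_lt_zero i),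
              cop := fun _ _ => cop_of_pgroup G Y Z p hp hc (h3.trans hRG) (hR.to_le h3) h5,
              hY := fun _ _ => h4, hN := fun i j hij hj => absurd hj (hlt i j hij), Qn := rfl,
              Qi := fun i hi => absurd hi (Nat.not_lt_zero i), T1 := fun _ _ => h5,
              T2 := fun i hi => absurd hi (Nat.not_lt_zero i),
              T3 := fun i hi => absurd hi (Nat.not_lt_zero i), T4 := ?_ }, rfl, rfl, rfl,
              fun _ _ => h3.trans hRG, h3.trans h1⟩
    intro T hT hne hYT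
    by_contra h6
    have h7 := hmin ⟨hT.trans h3, hYT, h6⟩ (Subgroup.card_le_of_le hT)
    exact hne (Subgroup.eq_of_le_of_card_ge hT h7)
  | succ n ih =>
    intro Γ _ _ G Y R _ hs hc p hp hR hRG hYR h1 h2
    set π := QuotientGroup.mk' (FI G 1) with hπ
    have hsurj : Function.Surjective π := QuotientGroup.mk'_surjective _
    have hker : ∀ x, π x = 1 → x ∈ FI G 1 := fun x hx => by
      rwa [hπ, QuotientGroup.mk'_apply, QuotientGroup.eq_one_iff] at hx
    have hG'n : (G.map π).Normal := Subgroup.Normal.map inferInstance π hsurj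
    have hG's : Group.IsSolvable (G.map π) :=
      Group.isSolvable_of_surjective (π.subgroupMap_surjective G)
    have hc' : (Nat.card (G.map π)).Coprime (Nat.card (Y.map π)) :=
      Nat.Coprime.coprime_dvd_left (Subgroup.card_map_dvd G π)
        (Nat.Coprime.coprime_dvd_right (Subgroup.card_map_dvd Y π) hc)
    obtain ⟨T', t1, t2, t3, t4, t5⟩ := ih (G.map π) (Y.map π) (R.map π) hG's hc' p hp
      (hR.map π) (Subgroup.map_mono hRG) (by
        rintro _ ⟨y, hy, rfl⟩
        exact nrm_map π R y (hYR hy)) (by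
        rintro _ ⟨x, hx, rfl⟩
        exact (mem_FI_quot G (n + 1) x (hRG hx)).2 (h1 hx)) (by
        intro h3
        apply h2
        intro x hx
        exact (mem_FI_quot G n x (hRG hx)).1 (h3 ⟨x, hx, rfl⟩))
    obtain ⟨P, hP, hmin⟩ := exists_lift_min π G Y (T'.n + 1) T'.P T'.p
      (exists_lift π Y T'.P T'.p (T'.n + 1) G hs hc (le_nrm_of_normal Y G)
        (fun i hi => T'.hp i (by omega)) (fun i hi => T'.hP i (by omega))
        (fun i hi => by
          rw [← t2]
          exact T'.hY i (by omega))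
        (fun i j hij hj => T'.hN i j hij (by omega))
        (fun i hi => t4 i (by omega)))
    have hmapn : (P T'.n).map π = T'.P T'.n := hP.map T'.n (by omega)
    obtain ⟨q, hq, hqr, X, hX1, hX2, hX3, hX4⟩ := exists_last G (T'.p T'.n)
      (T'.hp T'.n le_rfl) (P T'.n) (hP.pg T'.n (by omega)) (by
        intro h3
        apply T'.T1 T'.n le_rfl
        rw [← hmapn]
        rintro _ ⟨x, hx, rfl⟩
        have h4 : π x = 1 := by
          rw [hπ, QuotientGroup.mk'_apply, QuotientGroup.eq_one_iff]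
          exact h3 hx
        rw [h4]
        exact Subgroup.one_mem _) (by
        rw [← hπ, hmapn]
        exact t5)
    obtain ⟨M, hM1, hM2, hM3⟩ : ∃ M : Subgroup Γ, Y ≤ M ∧ (∀ i ≤ T'.n, P i ≤ M) ∧
        ∀ S : Subgroup Γ, Y ≤ Nrm S → (∀ i ≤ T'.n, P i ≤ Nrm S) → M ≤ Nrm S := by
      refine ⟨Y ⊔ ⨆ i : {i : ℕ // i ≤ T'.n}, P i, le_sup_left, ?_, ?_⟩
      · intro i hi
        exact le_sup_of_le_right (le_iSup (fun i : {i : ℕ // i ≤ T'.n} => P i) ⟨i, hi⟩)
      · intro S h3 h4
        exact sup_le h3 (iSup_le fun i => h4 i.1 i.2)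
    obtain ⟨Z, z1, z2, z3, z4, z5⟩ := exists_min_last M X (P T'.n) q (T'.p T'.n) hq
      (T'.hp T'.n le_rfl) hqr hX3 (hP.pg T'.n (by omega)) (le_nrm_of_normal M X)
      (hM3 _ (hP.hY T'.n (by omega)) (fun i hi => by
        rcases hi.lt_or_eq with h | h
        · exact hP.hN i T'.n h (by omega)
        · rw [h]
          exact Subgroup.le_normalizer)) (hM2 T'.n le_rfl) hX4
    obtain ⟨T, s1, s2, s3, s4, s5⟩ := assemble π G Y (FI G 1) (FI_one_nilp G) (FI_le G 1) hker hc
      T' t2 P hP hmin q hq hqr Z (z1.trans hX2) (hX3.to_le z1) (hM1.trans z2)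
      (fun i hi => (hM2 i hi).trans z2) z3 z4
      (fun S hS hne hYS hPS => z5 S hS hne (hM3 S hYS hPS))
    exact ⟨T, by rw [s1, t1], s2, by rw [s3, t3], s4, s5⟩

end FT
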