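import Mathlib
import Pool.Agent.helper11.FT.Defs
import Pool.Agent.helper11.FT.Tower
import Pool.Agent.helper11.FT.Syl2
import Pool.Agent.helper32.FT.FitRel
import Pool.Agent.helper32.FT.TA

/-! # FT-Fin: from an admissible triple to a tower -/

namespace FT

universe u v

open scoped commutatorElement

/-- the Fitting series of a solvable group reaches the group -/
theorem derived_le_fitSer (G : Type u) [Group G] (n : ℕ) (hn : derivedSeries G n = ⊥) :
    ∀ i ≤ n, derivedSeries G (n - i) ≤ fitSer G i := by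
  intro i
  induction i with
  | zero =>
    intro _
    rw [Nat.sub_zero, hn]
    exact bot_le
  | succ i ih =>
    intro hi
    have h1 := ih (by omega)
    have h2 : n - i = (n - (i + 1)) + 1 := by omega
    rw [h2, derivedSeries_succ] at h1
    rw [fitSer_succ, ← Subgroup.map_le_iff_le_comap]
    have hnorm : (derivedSeries G (n - (i + 1))).Normal := inferInstance
    refine le_fitting _ (hnorm.map _ (QuotientGroup.mk'_surjective _)) ?_
    have hc : ∀ a b : (derivedSeries G (n - (i + 1))).map (QuotientGroup.mk' (fitSer G i)),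
        a * b = b * a := by
      rintro ⟨_, a, ha, rfl⟩ ⟨_, b, hb, rfl⟩
      apply Subtype.ext
      change QuotientGroup.mk' (fitSer G i) a * QuotientGroup.mk' (fitSer G i) b =
        QuotientGroup.mk' (fitSer G i) b * QuotientGroup.mk' (fitSer G i) a
      rw [← commutatorElement_eq_one_iff_mul_comm, ← map_commutatorElement,
        QuotientGroup.mk'_apply, QuotientGroup.eq_one_iff]
      exact h1 (Subgroup.commutator_mem_commutator ha hb)
    let _ : CommGroup ((derivedSeries G (n - (i + 1))).map (QuotientGroup.mk' (fitSer G i))) :=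
      { (inferInstance : Group _) with mul_comm := hc }
    infer_instance

theorem exists_fitSer_top (G : Type u) [Group G] (hs : Group.IsSolvable G) :
    ∃ n, fitSer G n = ⊤ := by
  obtain ⟨n, hn⟩ := hs.solvable
  refine ⟨n, ?_⟩
  have h := derived_le_fitSer G n hn n le_rfl
  rw [Nat.sub_self, derivedSeries_zero] at h
  exact top_le_iff.1 h

section

variable {G : Type u} [Group G] {A : Type v} [Group A] [MulDistribMulAction A G]

/-- the semidirect product `G ⋊ A` -/
abbrev SD (G : Type u) [Group G] (A : Type v) [Group A] [MulDistribMulAction A G] :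
    Type (max u v) := G ⋊[MulDistribMulAction.toMulAut A G] A

/-- inclusion of `G` -/
abbrev iG (G : Type u) [Group G] (A : Type v) [Group A] [MulDistribMulAction A G] :
    G →* SD G A := SemidirectProduct.inl

/-- inclusion of `A` -/
abbrev iA (G : Type u) [Group G] (A : Type v) [Group A] [MulDistribMulAction A G] :
    A →* SD G A := SemidirectProduct.inr

theorem iG_inj : Function.Injective (iG G A) := SemidirectProduct.inl_injective

instance iG_normal : (iG G A).range.Normal := by
  rw [SemidirectProduct.range_inl_eq_ker_rightHom]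
  infer_instance

theorem iA_conj (a : A) (g : G) : iA G A a * iG G A g * (iA G A a)⁻¹ = iG G A (a • g) := by
  rw [← map_inv]
  exact (SemidirectProduct.inl_aut (φ := MulDistribMulAction.toMulAut A G) a g).symm

theorem iA_comm (a : A) (g : G) : iA G A a * iG G A g = iG G A g * iA G A a ↔ a • g = g := by
  constructor
  · intro h
    apply iG_inj (A := A)
    rw [← iA_conj, h]
    group
  · intro h
    have h1 := iA_conj a g
    rw [h] at h1
    exact mul_inv_eq_iff_eq_mul.1 h1

theorem iG_mem_FI (n : ℕ) (x : G) : iG G A x ∈ FI (iG G A).range n ↔ x ∈ fitSer G n := by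
  have h := fitSer_equiv ((iG G A).ofInjective iG_inj) n
  rw [← h, mem_FI]
  constructor
  · rintro ⟨h1, h2⟩
    exact h2
  · intro h1
    exact ⟨⟨x, rfl⟩, h1⟩

theorem exists_tower [Finite G] [Finite A] (hs : Group.IsSolvable G)
    (hc : Nat.Coprime (Nat.card A) (Nat.card G)) (p : ℕ) [hp : Fact p.Prime] (P : Sylow p G)
    (hPA : ∀ (a : A) (x : G), x ∈ P → a • x ∈ P)
    (hpC : ¬ p ∣ Nat.card (FixedPoints.subgroup A G))
    (hCP : FixedPoints.subgroup A G ≤ Nrm (P : Subgroup G)) (n : ℕ)
    (hn : ¬ (P : Subgroup G) ≤ fitSer G n) :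
    ∃ T : Tower (SD G A), n ≤ T.n ∧ Nat.card T.Y = Nat.card A ∧
      ∀ i ≤ T.n, T.P i ≤ (iG G A).range := by
  classical
  have hfin : Finite (SD G A) := Finite.of_equiv _ SemidirectProduct.equivProd.symm
  have hex : ∃ m, (P : Subgroup G) ≤ fitSer G m := by
    obtain ⟨m, hm⟩ := exists_fitSer_top G hs
    exact ⟨m, hm ▸ le_top⟩
  obtain ⟨m, hm1, hm2, hm3⟩ : ∃ m, (P : Subgroup G) ≤ fitSer G (m + 1) ∧
      ¬ (P : Subgroup G) ≤ fitSer G m ∧ n ≤ m := by
    have h1 := Nat.find_spec hex
    have h2 : n < Nat.find hex := by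
      by_contra h3
      exact hn (h1.trans (fitSer_mono G (not_lt.1 h3)))
    refine ⟨Nat.find hex - 1, ?_, Nat.find_min hex (by omega), by omega⟩
    have h4 : Nat.find hex - 1 + 1 = Nat.find hex := by omega
    rw [h4]
    exact h1
  set Gh : Subgroup (SD G A) := (iG G A).range with hGh
  set Y : Subgroup (SD G A) := (iA G A).range with hY
  set R : Subgroup (SD G A) := (P : Subgroup G).map (iG G A) with hR
  have hcardG : Nat.card Gh = Nat.card G :=
    Nat.card_congr ((iG G A).ofInjective iG_inj).symm.toEquiv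
  have hcardY : Nat.card Y = Nat.card A :=
    Nat.card_congr ((iA G A).ofInjective SemidirectProduct.inr_injective).symm.toEquiv
  have hGs : Group.IsSolvable Gh := Group.isSolvable_of_surjective (iG G A).rangeRestrict_surjective
  have hRG : R ≤ Gh := by
    rintro _ ⟨x, -, rfl⟩
    exact ⟨x, rfl⟩
  have hYR : Y ≤ Nrm R := by
    have key : ∀ y ∈ Y, ∀ z ∈ R, y * z * y⁻¹ ∈ R := by
      rintro _ ⟨a, rfl⟩ _ ⟨x, hx, rfl⟩
      exact ⟨a • x, hPA a x hx, (iA_conj a x).symm⟩
    intro y hy
    rw [Subgroup.mem_normalizer_iff]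
    intro z
    refine ⟨key y hy z, fun h => ?_⟩
    have h2 := key y⁻¹ (Y.inv_mem hy) _ h
    have h3 : y⁻¹ * (y * z * y⁻¹) * y⁻¹⁻¹ = z := by group
    rwa [h3] at h2
  have hcop : (Nat.card Gh).Coprime (Nat.card Y) := by
    rw [hcardG, hcardY]
    exact hc.symm
  have hRp : IsPGroup p R := P.2.map _
  obtain ⟨T, t1, t2, t3, t4, -⟩ := towerA m Gh Y R hGs hcop p hp.out hRp hRG hYR (by
    rintro _ ⟨x, hx, rfl⟩
    exact (iG_mem_FI (m + 1) x).2 (hm1 hx)) (by
    intro h
    apply hm2
    intro x hx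
    exact (iG_mem_FI (A := A) m x).1 (h ⟨x, hx, rfl⟩))
  -- fixed points
  have hfix : ∀ x ∈ Gh, (∀ y ∈ Y, y * x = x * y) → ∃ g : G, iG G A g = x ∧
      g ∈ FixedPoints.subgroup A G := by
    rintro _ ⟨g, rfl⟩ h
    refine ⟨g, rfl, ?_⟩
    intro a
    exact (iA_comm a g).1 (h _ ⟨a, rfl⟩)
  have hnorm : ∀ x ∈ Gh, (∀ y ∈ Y, y * x = x * y) → x ∈ Nrm R := by
    intro x hx h
    obtain ⟨g, rfl, hg⟩ := hfix x hx h
    exact nrm_map (iG G A) _ g (hCP hg)
  have hcardR : Nat.card R = p ^ (Nat.card Gh).factorization p := by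
    rw [hR, Subgroup.card_map_of_injective iG_inj, hcardG]
    exact P.card_eq_multiplicity
  have hPR : ∀ i ≤ T.n, T.p i = T.p 0 → T.P i ≤ R := by
    intro i hi hpi
    refine le_sylow_of_cent Gh Y R (T.P i) (le_nrm_of_normal Y Gh) hGs hcop p hp.out hRG hYR
      hcardR hnorm (t4 i hi) ?_ ?_
    · have h := T.hP i hi
      rwa [hpi, t3] at h
    · have h := T.hY i hi
      rwa [t2] at h
  refine ⟨{ T with S := R, hS := ?_, hSP := hPR, W1 := ?_, W2 := ?_ }, ?_, ?_, t4⟩
  · rw [t3]
    exact hRp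
  · intro i hi hpi x hx hxy
    obtain ⟨g, rfl, hg⟩ := hfix x (t4 i hi hx) (by rwa [t2] at hxy)
    have h1 : iG G A g ∈ R := hPR i hi hpi hx
    obtain ⟨g', hg', hgg⟩ := h1
    have h2 : g' = g := iG_inj hgg
    rw [h2] at hg'
    have h3 : ∃ k, orderOf g = p ^ k := by
      obtain ⟨k, hk⟩ := IsPGroup.iff_orderOf.1 P.2 ⟨g, hg'⟩
      rw [Subgroup.orderOf_mk] at hk
      exact ⟨k, hk⟩
    obtain ⟨k, hk⟩ := h3
    have h4 : orderOf g ∣ Nat.card (FixedPoints.subgroup A G) := by
      have h5 := orderOf_dvd_natCard (⟨g, hg⟩ : FixedPoints.subgroup A G)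
      rwa [Subgroup.orderOf_mk] at h5
    have h5 : k = 0 := by
      by_contra h6
      apply hpC
      rw [hk] at h4
      exact (dvd_pow_self p h6).trans h4
    rw [h5, pow_zero, orderOf_eq_one_iff] at hk
    rw [hk, map_one]
  · intro i hi hpi x hx hxy j hj hpj u hu
    have hxR : x ∈ Nrm R := hnorm x (t4 i hi hx) (by rwa [t2] at hxy)
    have huR : u ∈ R := hPR j (by omega) hpj hu
    have h1 : ⁅x, u⁆ ∈ R := by
      rw [commutatorElement_def]
      exact R.mul_mem ((Subgroup.mem_normalizer_iff.1 hxR u).1 huR) (R.inv_mem huR)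
    have h2 : ⁅x, u⁆ ∈ T.P i := by
      have h3 : ⁅x, u⁆ = x * (u * x⁻¹ * u⁻¹) := by
        rw [commutatorElement_def]
        group
      rw [h3]
      exact (T.P i).mul_mem hx ((Subgroup.mem_normalizer_iff.1 (T.hN j i hj hi hu) _).1
        ((T.P i).inv_mem hx))
    have : Fact (T.p i).Prime := ⟨T.hp i hi⟩
    have h3 : Disjoint R (T.P i) := by
      refine IsPGroup.disjoint_of_ne p (T.p i) ?_ R (T.P i) hRp (T.hP i hi)
      rw [← t3]
      exact hpi.symm
    have h4 : ⁅x, u⁆ ∈ (⊥ : Subgroup (SD G A)) := by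
      rw [← h3.eq_bot]
      exact ⟨h1, h2⟩
    rw [Subgroup.mem_bot, commutatorElement_eq_one_iff_mul_comm] at h4
    exact h4
  · change n ≤ T.n
    rw [t1]
    exact hm3
  · change Nat.card T.Y = Nat.card A
    rw [t2]
    exact hcardY

end

end FT
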